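import Pool.Agent.Helper8.DP2.Defs

/-! DQ-C4u: the finite check for `(m, n) = (3, 1)` at the primes `41` and `89`. -/

set_option autoImplicit false

namespace Pool.Agent.Helper8.DP2

/-- the computable reduced entry -/
def c4uRed (p : ℕ) (x y z : ZMod p) (i : Fin 7) : ZMod p :=
  if lin 3 1 x y z i = 0 then - com 3 1 x y z i else lin 3 1 x y z i

/-- the computable class; `M` is the bit mask of the squares modulo `p` -/
def c4uB (p M : ℕ) (x y z : ZMod p) (i : Fin 7) : Bool :=
  !(Nat.testBit M (c4uRed p x y z i).val)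

/-- the four differences -/
def c4uD (p M : ℕ) (x y z : ZMod p) : Bool × Bool × Bool × Bool :=
  (xor (c4uB p M x y z 0) (c4uB p M x y z 2), xor (c4uB p M x y z 2) (c4uB p M x y z 4),
    xor (c4uB p M x y z 1) (c4uB p M x y z 3), xor (c4uB p M x y z 3) (c4uB p M x y z 5))

/-- the list of the differences at `41` -/
def c4uL : List (Bool × Bool × Bool × Bool) :=
  [(false, true, false, true), (true, false, true, false), (true, true, true, true)]

theorem c4u_sq41 : ∀ a : ZMod 41, (∃ r : ZMod 41, a = r * r) ↔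
    Nat.testBit 1870503675703 a.val = true := by decide +kernel

theorem c4u_sq89 : ∀ a : ZMod 89, (∃ r : ZMod 89, a = r * r) ↔
    Nat.testBit 526807005835216593886842679 a.val = true := by decide +kernel

theorem c4u_a41 : ∀ y z : ZMod 41, F 3 1 1 y z = 0 → c4uD 41 1870503675703 1 y z ∈ c4uL := by
  decide +kernel

theorem c4u_b41 : ∀ z : ZMod 41, F 3 1 0 1 z = 0 → c4uD 41 1870503675703 0 1 z ∈ c4uL := by
  decide +kernel

theorem c4u_c41 : F 3 1 (0 : ZMod 41) 0 1 = 0 → c4uD 41 1870503675703 0 0 1 ∈ c4uL := by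
  decide +kernel

theorem c4u_a89 : ∀ y z : ZMod 89, F 3 1 1 y z = 0 →
    c4uD 89 526807005835216593886842679 1 y z ∉ c4uL := by
  decide +kernel

theorem c4u_b89 : ∀ z : ZMod 89, F 3 1 0 1 z = 0 →
    c4uD 89 526807005835216593886842679 0 1 z ∉ c4uL := by
  decide +kernel

theorem c4u_c89 : F 3 1 (0 : ZMod 89) 0 1 = 0 →
    c4uD 89 526807005835216593886842679 0 0 1 ∉ c4uL := by
  decide +kernel

theorem c4u_cls {p M : ℕ}
    (hM : ∀ a : ZMod p, (∃ r : ZMod p, a = r * r) ↔ Nat.testBit M a.val = true)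
    (x y z : ZMod p) (i : Fin 7) :
    cls 3 1 x y z i = if c4uB p M x y z i then 1 else 0 := by
  have h1 : red 3 1 x y z i = c4uRed p x y z i := by
    unfold red c4uRed
    by_cases h : lin 3 1 x y z i = 0
    · rw [if_neg (not_not.2 h), if_pos h]
    · rw [if_pos h, if_neg h]
  have h2 : IsSquare (c4uRed p x y z i) ↔ Nat.testBit M (c4uRed p x y z i).val = true :=
    hM _
  unfold cls c4uB
  rw [h1]
  by_cases h : IsSquare (c4uRed p x y z i)
  · rw [if_pos h, h2.1 h]
    rfl
  · have h3 : Nat.testBit M (c4uRed p x y z i).val = false := by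
      rw [← Bool.not_eq_true]
      exact fun h' => h (h2.2 h')
    rw [if_neg h, h3]
    rfl

theorem c4u_xor : ∀ a b c d : Bool,
    ((if a then (1 : ZMod 2) else 0) + (if c then 1 else 0) =
      (if b then 1 else 0) + (if d then 1 else 0)) → xor a b = xor c d := by decide

/-- case `(m,n,d) = (3,1,41*89)` -/
theorem c4_upper (x y z : ZMod 41) (h : Nrm x y z) (hF : F 3 1 x y z = 0)
    (x' y' z' : ZMod 89) (h' : Nrm x' y' z') (hF' : F 3 1 x' y' z' = 0)
    (s : Fin 7 → ZMod 2) (hs : ∀ j, s j = cls 3 1 x y z j + cls 3 1 x' y' z' j) :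
    ¬ (s 0 = s 2 ∧ s 2 = s 4 ∧ s 1 = s 3 ∧ s 3 = s 5) := by
  have h41 : c4uD 41 1870503675703 x y z ∈ c4uL := by
    rcases h with rfl | ⟨rfl, rfl⟩ | ⟨rfl, rfl, rfl⟩
    · exact c4u_a41 y z hF
    · exact c4u_b41 z hF
    · exact c4u_c41 hF
  have h89 : c4uD 89 526807005835216593886842679 x' y' z' ∉ c4uL := by
    rcases h' with rfl | ⟨rfl, rfl⟩ | ⟨rfl, rfl, rfl⟩
    · exact c4u_a89 y' z' hF'
    · exact c4u_b89 z' hF'
    · exact c4u_c89 hF'
  rintro ⟨h1, h2, h3, h4⟩
  apply h89
  have key : ∀ i j : Fin 7, s i = s j →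
      xor (c4uB 41 1870503675703 x y z i) (c4uB 41 1870503675703 x y z j) =
      xor (c4uB 89 526807005835216593886842679 x' y' z' i)
        (c4uB 89 526807005835216593886842679 x' y' z' j) := by
    intro i j hij
    rw [hs, hs, c4u_cls c4u_sq41, c4u_cls c4u_sq41, c4u_cls c4u_sq89, c4u_cls c4u_sq89] at hij
    exact c4u_xor _ _ _ _ hij
  have e : c4uD 89 526807005835216593886842679 x' y' z' = c4uD 41 1870503675703 x y z := by
    unfold c4uD
    rw [key 0 2 h1, key 2 4 h2, key 1 3 h3, key 3 5 h4]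
  rw [e]
  exact h41

end Pool.Agent.Helper8.DP2
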